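import Mathlib
import Pool.Agent.Helper31.NR.Good

/-!
# Finitely bounded Ramsey expansions of completable classes

Let `K` be a finitely bounded class of finite structures (closed under isomorphism and substructures) which is completable
(`Completable`: structures given on the cliques of a graph extend to the whole set), or has a natural one-point
amalgamation (`NatAmalg`).  Then `K` is a Fraisse class, and its expansion by all linear orders is a finitely bounded Ramsey Fraisse class
which extends `K`.
-/

namespace Pool.Agent.Results.MP_942bce_lc.CliqueCompletion

open Pool.Agent.Helper31.NR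

theorem result (S : Type) [Finite S] (ar : S → ℕ) (har : ∀ s, 0 < ar s) (K : Cls ar)
    (hK : Hereditary K) (h0 : ∃ (n : ℕ) (I : Str ar (Fin n)), K n I) (hb : FinBounded K)
    (hC : Completable K ∨ ∃ ρ : ∀ n : ℕ, Fin n → Fin n → Str ar (Fin n) → Str ar (Fin n), NatAmalg K ρ) :
    (IsFraisse K ∧ FinBounded K) ∧ IsFraisse (ordC K) ∧ Extends K (ordC K) ∧ FinBounded (ordC K) ∧
      IsRamsey (ordC K) := by
  rcases hC with hC | ⟨ρ, hρ⟩
  · exact orderExpansion_of_completable S ar har K hK h0 hb hC
  · exact orderExpansion_of_completable S ar har K hK h0 hb (completable_of_nat K ρ hρ)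

end Pool.Agent.Results.MP_942bce_lc.CliqueCompletion
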