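import Mathlib
import Pool.Agent.Helper31.NR.Four

/-!
# The classes of 3-hypertournaments given by forbidden structures on four points

For every set `P` of structures on four points, if the class of the finite 3-hypertournaments which omit all members of `P` is a
Fraisse class, then it has an extension by finitely many relations which is a finitely bounded Ramsey Fraisse class.
-/

namespace Pool.Agent.Results.MP_942bce_lc.FourConstrained

open Pool.Agent.Helper31.NR

theorem result (P : Set (Str (fun _ : Unit => 3) (Fin 4)))
    (hF : IsFraisse (HTF 3 {p : Σ n : ℕ, Str (fun _ : Unit => 3) (Fin n) | ∃ Q ∈ P, p = ⟨4, Q⟩})) :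
    Positive (HTF 3 {p : Σ n : ℕ, Str (fun _ : Unit => 3) (Fin n) | ∃ Q ∈ P, p = ⟨4, Q⟩}) :=
  positive_four P hF

end Pool.Agent.Results.MP_942bce_lc.FourConstrained
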