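import Mathlib
import Pool.Agent.Helper31.NR.Good

/-!
# Ramsey expansions of classes of hypertournaments

Let `r ≥ 3`.  The class of `r`-hypertournaments which omit the hypertournament `H_(r+1)` (`r + 1` points, invariant under all
even permutations), and more generally the class of `r`-hypertournaments omitting any finite set of structures each of which is `H_(r+1)` or satisfies `Irred`, is a finitely bounded Fraisse class, and
its expansion by all linear orders is a finitely bounded Ramsey Fraisse class which extends it.
-/

namespace Pool.Agent.Results.MP_942bce_lc.Hypertournaments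

open Pool.Agent.Helper31.NR

theorem result (r : ℕ) (hr : 3 ≤ r) (F : Set (Σ n : ℕ, Str (fun _ : Unit => r) (Fin n))) (hF : F.Finite)
    (hI : ∀ p ∈ F, p ∈ FH r ∨ Irred p.2) :
    (IsFraisse (HTF r F) ∧ FinBounded (HTF r F)) ∧ IsFraisse (ordC (HTF r F)) ∧
      Extends (HTF r F) (ordC (HTF r F)) ∧ FinBounded (ordC (HTF r F)) ∧ IsRamsey (ordC (HTF r F)) := by
  refine orderExpansion_HTF r (by omega) F hF fun p hp => ?_
  rcases hI p hp with h | h
  · exact hF_irred hr p h
  · exact h

end Pool.Agent.Results.MP_942bce_lc.Hypertournaments
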